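import Pool.Agent.Run7.h431.MX.TR
import Pool.Agent.Run7.h431.MX.TATE
import Pool.Agent.Run7.h594.MX.COP
import Pool.Agent.Run7.h594.MX.CONV
import Pool.Agent.Run7.h300.MX.NF
import Pool.Agent.Run7.h648.MX.HF
import Pool.Agent.Run7.h569.MX.CHAIN
import Pool.Agent.Run7.h299.MX.SYL
import Pool.Agent.Run7.h950.MX.FRAT
import Pool.Agent.Run7.h984.MX.PN
import Pool.Agent.Run7.h957.MX.FIN
import Pool.Agent.Run7.h559.MX.STR

/-!
MP_c2f9c6_al, Q1: determine the profinite groups with the maximum condition on closed subgroups.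

A profinite group `G` satisfies the maximum condition for closed subgroups if and only if it has an open
normal subgroup `N` which is the internal direct product of finitely many closed normal subgroups `P p` of
`G`, one for each prime `p` of a finite set `s`, where `P p` is a pro-`p` group satisfying the maximum
condition for closed subgroups.  (The factors commute elementwise and generate `N`; their intersections are
trivial because they are pro-`p` for different primes.)  This answers the question except for pro-`p` groups.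
-/

universe u

namespace Pool.Agent.Results.MP_c2f9c6_al.ProductsOfProPGroups

/-- The maximum condition for closed subgroups: every non-empty family of closed subgroups has a
maximal element with respect to inclusion. -/
def MaxClosed (G : Type u) [Group G] [TopologicalSpace G] : Prop :=
  ∀ F : Set (Subgroup G), F.Nonempty → (∀ H ∈ F, IsClosed (H : Set G)) →
    ∃ M ∈ F, ∀ H ∈ F, M ≤ H → H = M

/-- `P` is pro-`p`: its quotient by every open normal subgroup is a `p`-group (used for profinite
groups `P`). -/
def IsProP (p : ℕ) (P : Type u) [Group P] [TopologicalSpace P] : Prop :=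
  ∀ V : OpenNormalSubgroup P, IsPGroup p (P ⧸ V.toSubgroup)

theorem result (G : Type u) [Group G] [TopologicalSpace G] [IsTopologicalGroup G]
    [CompactSpace G] [T2Space G] [TotallyDisconnectedSpace G] :
    MaxClosed G ↔
      ∃ (N : Subgroup G) (s : Finset ℕ) (P : ℕ → Subgroup G),
        N.Normal ∧ IsOpen (N : Set G) ∧
        (∀ p ∈ s, p.Prime ∧ (P p).Normal ∧ IsClosed (P p : Set G) ∧ IsProP p (P p) ∧
          MaxClosed (P p)) ∧
        (∀ p ∈ s, ∀ q ∈ s, p ≠ q → ∀ x ∈ P p, ∀ y ∈ P q, x * y = y * x) ∧
        N = ⨆ p ∈ s, P p := by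
  have hTATE : Run7.h900.MX.S_TATE.{u} := Run7.h431.MX.t_TATE Run7.h431.MX.t_TR
  have hSYL : Run7.h900.MX.S_SYL.{u} :=
    Run7.h299.MX.t_SYL Pool.Agent.Run7.h594.MX.t_COP Run7.h569.MX.t_CHAIN
  have hPN : Run7.h900.MX.S_PN.{u} := Run7.h984.MX.t_PN hSYL Run7.h950.MX.t_FRAT hTATE
  have hHALL : Run7.h900.MX.S_HALL.{u} := Run7.h648.MX.t_HALL Run7.h648.MX.t_HF
  have hFIN : Run7.h900.MX.S_FIN.{u} := Run7.h957.MX.t_FIN hPN hHALL hSYL
  have hSTR : Run7.h900.MX.S_STR.{u} := Run7.h559.MX.t_STR hPN hFIN hSYL Run7.h300.MX.t_NF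
  have hCONV : Run7.h900.MX.S_CONV.{u} := Pool.Agent.Run7.h594.MX.t_CONV
  exact ⟨fun h => hSTR G h, fun h => hCONV G h⟩

end Pool.Agent.Results.MP_c2f9c6_al.ProductsOfProPGroups
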